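import Pool.Agent.T9h44.NK.Ind

/-!
# Project NK: the recursive form of the bound

If there are no geometrically `j`-orbit `d`-polytopes for `2 ≤ j ≤ k`, `d ≥ D - (k - j)`, and `D ≥ k + 11`, then there
are no `j`-orbit `d`-polytopes for `2 ≤ j ≤ k + m`, `d ≥ D + 9 m`.
-/

set_option autoImplicit false

open Set
open scoped RealInnerProductSpace

namespace Pool.Agent.T9h64.NK

open Pool.Agent.T9h98.DC Pool.Agent.T9h98.NK Pool.Agent.T9h44.NK

/-- the group is not transitive on the vertices: one dimension more -/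
theorem step_c (hF : S_FACES) (hVF : S_VF) (hI : S_INV) (hO : S_IOTA) (hT : S_TR) (hS : S_STEP)
    (k m : ℕ) (hm : 8 ≤ m)
    (hk : ∀ (Q : Set (E (m + 1))) (K : Subgroup (E (m + 1) ≃ₗᵢ[ℝ] E (m + 1))), IsPolytope Q →
      Pres K Q → Few k K Q → Good Q K)
    (P : Set (E (m + 1 + 1))) (H : Subgroup (E (m + 1 + 1) ≃ₗᵢ[ℝ] E (m + 1 + 1)))
    (hP : IsPolytope P) (hH : Pres H P) (hFew : Few (k + 1) H P) (hReg : Reg P) : Good P H := by
  by_cases htr : ∃ v w, Vx P v ∧ Vx P w ∧ ∀ h ∈ H, h v ≠ w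
  · obtain ⟨v₀, w₀, hv₀, hw₀, hne⟩ := htr
    apply hS (m + 1) P H (by omega) hP hH
    intro v hv
    obtain ⟨a, ha, hs, hfix⟩ := hI (m + 1 + 1) P v H hP.1 hv (exists_ne hP v) hH
    obtain ⟨ι, hι, -⟩ := hO (m + 1) a ha
    refine ⟨a, ι, hs, ha, hι, hfix, ?_⟩
    obtain ⟨t1, -, -, -, t5⟩ := hT (m + 1) P H v a ι hP hH hv hs ha hι hfix
    have hex : ∃ w, Vx P w ∧ ∀ h ∈ H, h v ≠ w := by
      by_contra hcon
      push Not at hcon
      obtain ⟨g1, hg1, e1⟩ := hcon v₀ hv₀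
      obtain ⟨g2, hg2, e2⟩ := hcon w₀ hw₀
      apply hne (g2 * g1⁻¹) (H.mul_mem hg2 (H.inv_mem hg1))
      change g2 (g1.symm v₀) = w₀
      rw [← e1, g1.symm_apply_apply, e2]
    have hfig := (hVF (m + 1) P v a ι hP hv hs ha hι).1
    exact hk _ _ hfig t1 (t5 k hFew hex)
  · push Not at htr
    refine ⟨hReg, fun v w w' hw hw' => ?_⟩
    have hf := hF (m + 1 + 1) P hP.1
    obtain ⟨-, -, -, -, -, -, -, -, hA, -⟩ := hf
    exact htr w w' (hA v w hw).2.1 (hA v w' hw').2.1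

/-- a polytope with at most `k` classes of flags in a dimension without `j`-orbit polytopes,
`2 ≤ j ≤ k`, is regular -/
theorem reg_free (hF : S_FACES) (hE : S_EXT) (hTR : S_TRANS) (hM : S_MONO) (hL : S_LL2) (k n : ℕ)
    (hn : 11 ≤ n) (P : Set (E (n + 1))) (H : Subgroup (E (n + 1) ≃ₗᵢ[ℝ] E (n + 1)))
    (hP : IsPolytope P) (hH : Pres H P) (hFew : Few k H P)
    (hno : ∀ j, 2 ≤ j → j ≤ k → ¬ IsKOrbit j P) : Reg P := by
  obtain ⟨-, -, -, -, h5, -⟩ := hF (n + 1) P hP.1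
  obtain ⟨x, hx⟩ := hP.2
  obtain ⟨-, v, hv⟩ := h5 ⟨x, interior_subset hx⟩
  obtain ⟨Φ₀, -⟩ := hE n P v hP hv
  have hne : Nonempty (Quotient (flagSetoid P)) :=
    ⟨Quotient.mk (flagSetoid P) ⟨Φ₀.face, Φ₀.isFace, Φ₀.dim, Φ₀.mono⟩⟩
  have hinj : ∀ f : Fin (k + 1) → Quotient (flagSetoid P), ¬ Function.Injective f := by
    intro f hf
    obtain ⟨i, j, hij, h, hh, hl⟩ := hFew (fun i =>
      ⟨(Quotient.out (f i)).face, (Quotient.out (f i)).isFace, (Quotient.out (f i)).dim,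
        (Quotient.out (f i)).mono⟩)
    apply hij
    apply hf
    rw [← Quotient.out_eq (f i), ← Quotient.out_eq (f j)]
    apply Quotient.sound
    exact ⟨h.toIsometryEquiv, hH h hh, hl⟩
  have hfin : Finite (Quotient (flagSetoid P)) := by
    by_contra hcon
    rw [not_finite_iff_infinite] at hcon
    exact hinj (fun i => Infinite.natEmbedding (Quotient (flagSetoid P)) (i : ℕ))
      (fun a b hab => Fin.ext ((Infinite.natEmbedding (Quotient (flagSetoid P))).injective hab))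
  have hcard : Nat.card (Quotient (flagSetoid P)) ≤ k := by
    by_contra hcon
    push Not at hcon
    let e := Finite.equivFin (Quotient (flagSetoid P))
    exact hinj (fun i => e.symm (Fin.castLE hcon i))
      (fun a b hab => Fin.castLE_injective hcon (e.symm.injective hab))
  have hpos : 0 < Nat.card (Quotient (flagSetoid P)) := Nat.card_pos
  have h1 : Nat.card (Quotient (flagSetoid P)) = 1 := by
    by_contra hne1
    exact hno _ (by omega) hcard ⟨hP, rfl⟩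
  obtain ⟨P', H', hP', hH', hFew', hReg⟩ := hTR (n + 1) 1 P ⟨hP, h1⟩ one_pos
  apply hReg
  exact hL n hn P' H' hP' hH' (hM n P' H' 9 (n + 1) hP' (by omega) le_rfl (pt_of_few_one hFew'))

/-- the induction step of `Ind.lean` with any bound `c` -/
theorem aj' (hVF : S_VF) (hI : S_INV) (hO : S_IOTA) (hT : S_TR) (hS : S_STEP)
    (k c : ℕ) (hc : 11 ≤ c) (hk : ∀ (n : ℕ), c ≤ n → ∀ (P : Set (E (n + 1)))
      (H : Subgroup (E (n + 1) ≃ₗᵢ[ℝ] E (n + 1))), IsPolytope P → Pres H P → Few k H P →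
      Good P H) :
    ∀ (j n : ℕ), c + j ≤ n → ∀ (P : Set (E (n + 1)))
      (H : Subgroup (E (n + 1) ≃ₗᵢ[ℝ] E (n + 1))), IsPolytope P → Pres H P → Few (k + 1) H P →
      Good P H ∨ PT j H P := by
  intro j
  induction j with
  | zero =>
    intro n _ P H _ _ _
    exact Or.inr (pt_zero P H)
  | succ j ih =>
    intro n hn P H hP hH hFew
    obtain ⟨m, rfl⟩ : ∃ m, n = m + 1 := ⟨n - 1, by omega⟩
    have hdat : ∀ v, Vx P v → ∃ (a : E (m + 1 + 1)) (ι : E (m + 1) →ₗᵢ[ℝ] E (m + 1 + 1)),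
        a ≠ 0 ∧ Sup P v a ∧ Ort a ι ∧ (∀ h ∈ H, h v = v → h a = a) := by
      intro v hv
      obtain ⟨a, ha, hs, hfix⟩ := hI (m + 1 + 1) P v H hP.1 hv (exists_ne hP v) hH
      obtain ⟨ι, hι, -⟩ := hO (m + 1) a ha
      exact ⟨a, ι, ha, hs, hι, hfix⟩
    by_cases htr : ∃ v w, Vx P v ∧ Vx P w ∧ ∀ h ∈ H, h v ≠ w
    · obtain ⟨v₀, w₀, hv₀, hw₀, hne⟩ := htr
      left
      apply hS (m + 1) P H (by omega) hP hH
      intro v hv
      obtain ⟨a, ι, ha, hs, hι, hfix⟩ := hdat v hv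
      refine ⟨a, ι, hs, ha, hι, hfix, ?_⟩
      obtain ⟨t1, -, -, -, t5⟩ := hT (m + 1) P H v a ι hP hH hv hs ha hι hfix
      have hex : ∃ w, Vx P w ∧ ∀ h ∈ H, h v ≠ w := by
        by_contra hcon
        push Not at hcon
        obtain ⟨g1, hg1, e1⟩ := hcon v₀ hv₀
        obtain ⟨g2, hg2, e2⟩ := hcon w₀ hw₀
        apply hne (g2 * g1⁻¹) (H.mul_mem hg2 (H.inv_mem hg1))
        change g2 (g1.symm v₀) = w₀
        rw [← e1, g1.symm_apply_apply, e2]
      have hfig := (hVF (m + 1) P v a ι hP hv hs ha hι).1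
      exact hk m (by omega) _ _ hfig t1 (t5 k hFew hex)
    · push Not at htr
      by_cases hex : ∃ (v a : E (m + 1 + 1)) (ι : E (m + 1) →ₗᵢ[ℝ] E (m + 1 + 1)), Vx P v ∧ a ≠ 0 ∧
          Sup P v a ∧ Ort a ι ∧ (∀ h ∈ H, h v = v → h a = a) ∧ PT j (figH H v ι) (fig v a ι P)
      · obtain ⟨v, a, ι, hv, ha, hs, hι, hfix, hpt⟩ := hex
        right
        obtain ⟨-, -, t3, -, -⟩ := hT (m + 1) P H v a ι hP hH hv hs ha hι hfix
        exact t3 j (fun w hw => htr v w hv hw) hpt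
      · left
        apply hS (m + 1) P H (by omega) hP hH
        intro v hv
        obtain ⟨a, ι, ha, hs, hι, hfix⟩ := hdat v hv
        refine ⟨a, ι, hs, ha, hι, hfix, ?_⟩
        obtain ⟨t1, -, -, t4, -⟩ := hT (m + 1) P H v a ι hP hH hv hs ha hι hfix
        have hfig := (hVF (m + 1) P v a ι hP hv hs ha hι).1
        rcases ih m (by omega) _ _ hfig t1 (t4 (k + 1) hFew) with h | h
        · exact h
        · exact absurd ⟨v, a, ι, hv, ha, hs, hι, hfix, h⟩ hex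

theorem few_mono {d : ℕ} {P : Set (E d)} {H : Subgroup (E d ≃ₗᵢ[ℝ] E d)} {i j : ℕ} (hij : i ≤ j)
    (h : Few i H P) : Few j H P := by
  intro Φ
  obtain ⟨a, b, hab, g, hg, hl⟩ := h fun l => Φ (Fin.castLE (by omega) l)
  exact ⟨_, _, fun hc => hab (Fin.castLE_injective _ hc), g, hg, hl⟩

/-- **the recursive bound** -/
theorem recursion (hF : S_FACES) (hVF : S_VF) (hI : S_INV) (hO : S_IOTA) (hT : S_TR) (hE : S_EXT)
    (hM : S_MONO) (hL : S_LL2) (hS : S_STEP) (hTR : S_TRANS) (hONE : S_ONE) (hS1 : S_FTS)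
    (hS2 : S_FTO) (hS3 : S_FTC) (k D : ℕ) (hk : 1 ≤ k) (hD : k + 11 ≤ D)
    (hno : ∀ j, 2 ≤ j → j ≤ k → ∀ d, D + j ≤ d + k → ∀ P : Set (E d), ¬ IsKOrbit j P) :
    ∀ m d, D + 9 * m ≤ d → ∀ j, 2 ≤ j → j ≤ k + m → ∀ P : Set (E d), ¬ IsKOrbit j P := by
  -- the first `k` steps cost one dimension each
  have base : ∀ i, 1 ≤ i → i ≤ k → ∀ n, D + i ≤ n + 1 + k → ∀ (P : Set (E (n + 1)))
      (H : Subgroup (E (n + 1) ≃ₗᵢ[ℝ] E (n + 1))), IsPolytope P → Pres H P → Few i H P →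
      Good P H := by
    intro i hi
    induction i, hi using Nat.le_induction with
    | base =>
      intro _ n hn P H hP hH hFew
      exact good_of_pt hF hM hL (by omega) hP hH
        (hM n P H 9 (n + 1) hP (by omega) le_rfl (pt_of_few_one hFew))
    | succ i hi ih =>
      intro hik n hn P H hP hH hFew
      obtain ⟨m, rfl⟩ : ∃ m, n = m + 1 := ⟨n - 1, by omega⟩
      have hReg : Reg P := reg_free hF hE hTR hM hL (i + 1) (m + 1) (by omega) P H hP hH hFew
        (fun j h2 hj => hno j h2 (by omega) (m + 1 + 1) (by omega) P)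
      exact step_c hF hVF hI hO hT hS i m (by omega)
        (fun Q K hQ hK hFQ => ih (by omega) m (by omega) Q K hQ hK hFQ) P H hP hH hFew hReg
  -- the other steps cost nine dimensions each
  have main : ∀ m n, D + 9 * m ≤ n + 1 → ∀ (P : Set (E (n + 1)))
      (H : Subgroup (E (n + 1) ≃ₗᵢ[ℝ] E (n + 1))), IsPolytope P → Pres H P → Few (k + m) H P →
      Good P H := by
    intro m
    induction m with
    | zero =>
      intro n hn P H hP hH hFew
      exact base k hk le_rfl n (by omega) P H hP hH hFew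
    | succ m ih =>
      intro n hn P H hP hH hFew
      rcases aj' hVF hI hO hT hS (k + m) (D + 9 * m - 1) (by omega)
        (fun n' hn' Q K hQ hK hFQ => ih n' (by omega) Q K hQ hK hFQ) 9 n (by omega) P H hP hH
        hFew with h | h
      · exact h
      · exact good_of_pt hF hM hL (by omega) hP hH h
  intro m d hd j hj hjk P hP
  obtain ⟨n, rfl⟩ : ∃ n, d = n + 1 := ⟨d - 1, by omega⟩
  obtain ⟨P', H, hP', hH, hFew, hReg⟩ := hTR (n + 1) j P hP (by omega)
  have hG := main m n (by omega) P' H hP' hH (few_mono hjk hFew)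
  have hR : FT P := by
    rcases hReg hG.1 with h | h | h
    · exact hS1 _ _ h
    · exact hS2 _ _ h
    · exact hS3 _ _ h
  have := hONE (n + 1) j P hP hR
  omega

end Pool.Agent.T9h64.NK
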