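import Pool.Agent.T9h44.NK.SpecA

/-!
# (SH) chains through `v` and chains of the figure
-/

set_option autoImplicit false

open Set
open scoped RealInnerProductSpace

namespace Pool.Agent.T9h64.NK

open Pool.Agent.T9h98.DC Pool.Agent.T9h44.NK

theorem dm_pt {d : ℕ} (v : E d) : dm ({v} : Set (E d)) = 0 := by
  show Module.finrank ℝ (vectorSpan ℝ ({v} : Set (E d))) = 0
  rw [vectorSpan_singleton]
  exact finrank_bot ℝ (E d)

theorem fig_mono {d : ℕ} (v n : E (d + 1)) (ι : E d →ₗᵢ[ℝ] E (d + 1)) {F G : Set (E (d + 1))}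
    (h : F ⊆ G) : fig v n ι F ⊆ fig v n ι G := by
  rintro x ⟨t, ht, hx⟩
  exact ⟨t, ht, h hx⟩

theorem sh' : S_VF → S_SH := by
  intro hVF d P v n ι hP hv hs hn hι j
  obtain ⟨-, h2, h3, h4⟩ := hVF d P v n ι hP hv hs hn hι
  constructor
  · intro Ψ
    have h5 := fun i : Fin j => h3 (Ψ.face i) (Ψ.isFace i)
    choose F hF using h5
    have hdim : ∀ i, dm (F i) = i + 1 := by
      intro i
      rw [← (h2 (F i) (hF i).1 (hF i).2.1 (hF i).2.2.1).2, (hF i).2.2.2, Ψ.dim i]
    refine ⟨⟨Fin.cons {v} F, ?_, ?_, ?_⟩, ?_, ?_⟩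
    · intro i
      refine Fin.cases ?_ (fun i => ?_) i
      · exact hv
      · exact (hF i).1
    · intro i
      refine Fin.cases ?_ (fun i => ?_) i
      · show dm ({v} : Set (E (d + 1))) = 0
        exact dm_pt v
      · show dm (F i) = ((i.succ : Fin (j + 1)) : ℕ)
        rw [hdim i, Fin.val_succ]
    · intro a b
      refine Fin.cases ?_ (fun a => ?_) a
      · refine Fin.cases ?_ (fun b => ?_) b
        · intro _
          exact le_rfl
        · intro _
          show ({v} : Set (E (d + 1))) ⊆ F b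
          exact singleton_subset_iff.2 (hF b).2.1
      · refine Fin.cases ?_ (fun b => ?_) b
        · intro h
          exact absurd h (not_le.2 (Fin.succ_pos a))
        · intro h
          show F a ⊆ F b
          apply h4 _ _ (hF a).1 (hF b).1 (hF a).2.1 (hF b).2.1
          rw [(hF a).2.2.2, (hF b).2.2.2]
          exact Ψ.mono (Fin.succ_le_succ_iff.1 h)
    · rfl
    · intro i
      show fig v n ι (F i) = Ψ.face i
      exact (hF i).2.2.2
  · intro Φ h0
    have hvm : ∀ i : Fin j, v ∈ Φ.face i.succ := by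
      intro i
      have h5 := Φ.mono (Fin.zero_le i.succ)
      rw [h0] at h5
      exact h5 rfl
    have hne : ∀ i : Fin j, Φ.face i.succ ≠ {v} := by
      intro i h
      have h5 := Φ.dim i.succ
      rw [h, dm_pt, Fin.val_succ] at h5
      omega
    refine ⟨⟨fun i => fig v n ι (Φ.face i.succ), ?_, ?_, ?_⟩, fun i => rfl⟩
    · intro i
      exact (h2 _ (Φ.isFace i.succ) (hvm i) (hne i)).1
    · intro i
      have h5 := (h2 _ (Φ.isFace i.succ) (hvm i) (hne i)).2
      have h6 := Φ.dim i.succ
      rw [Fin.val_succ] at h6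
      show dm (fig v n ι (Φ.face i.succ)) = (i : ℕ)
      omega
    · intro a b hab
      exact fig_mono v n ι (Φ.mono (Fin.succ_le_succ_iff.2 hab))

theorem sh : S_FACES → S_VF → S_SH := fun _ => sh'

end Pool.Agent.T9h64.NK
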