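import Pool.Agent.T9h44.NK.SpecA
import Pool.Agent.T9h44.NK.SpecB
import Pool.Agent.T9h64.NK.SH

/-!
# (ECP) transitivity on the chains vertex - edge gives equal edges
-/

set_option autoImplicit false

open Set
open scoped RealInnerProductSpace

namespace Pool.Agent.T9h64.NK

open Pool.Agent.T9h98.DC Pool.Agent.T9h44.NK

/-- the chain `v`, `[v, w]` -/
theorem exists_ch2 {d : ℕ} {P : Set (E d)} {v w : E d} (hv : Vx P v) (ha : Adj P v w)
    (hd : dm (segment ℝ v w) = 1) :
    ∃ Φ : Ch P 2, Φ.face 0 = {v} ∧ Φ.face 1 = segment ℝ v w := by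
  refine ⟨⟨![{v}, segment ℝ v w], ?_, ?_, ?_⟩, rfl, rfl⟩
  · intro i
    fin_cases i
    · exact hv
    · exact ha.2
  · intro i
    fin_cases i
    · exact dm_pt v
    · exact hd
  · intro a b hab
    fin_cases a <;> fin_cases b
    · exact le_rfl
    · exact singleton_subset_iff.2 (left_mem_segment ℝ v w)
    · exact absurd hab (by decide)
    · exact le_rfl

/-- a segment and one endpoint determine the other endpoint -/
theorem seg_end {d : ℕ} {v w u : E d} (hne : v ≠ w) (h : segment ℝ v u = segment ℝ v w) :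
    u = w := by
  have h1 : u ∈ segment ℝ v w := by rw [← h]; exact right_mem_segment ℝ v u
  have h2 : w ∈ segment ℝ v u := by rw [h]; exact right_mem_segment ℝ v w
  rw [segment_eq_image'] at h1 h2
  obtain ⟨s, hs, hs'⟩ := h1
  obtain ⟨t, ht, ht'⟩ := h2
  have h3 : (1 - t * s) • (w - v) = 0 := by
    have h4 : u - v = s • (w - v) := by rw [← hs']; simp
    have h5 : w - v = t • (u - v) := by rw [← ht']; simp
    rw [sub_smul, one_smul, mul_smul, ← h4, ← h5, sub_self]
  rcases smul_eq_zero.1 h3 with h4 | h4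
  · have h5 : t * s ≤ s := by nlinarith [ht.2, hs.1]
    have h6 : s = 1 := le_antisymm hs.2 (by linarith)
    rw [← hs', h6]
    simp
  · exact absurd (sub_eq_zero.1 h4).symm hne

theorem ecp : S_FACES → S_ECP := by
  intro hF d P H hP hH hU hT
  have hFP : FP P := hP.1
  obtain ⟨-, -, -, -, -, -, -, -, h9, -⟩ := hF (d + 1) P hFP
  by_cases hex : ∃ v w, Adj P v w
  · obtain ⟨v₀, w₀, h0⟩ := hex
    obtain ⟨hv0, hw0, -, hd0⟩ := h9 v₀ w₀ h0
    refine ⟨⟪v₀, w₀⟫, ?_, ?_⟩
    · exact inner_lt_one_iff_real_of_norm_eq_one (hU v₀ hv0) (hU w₀ hw0) |>.2 h0.1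
    · intro v w hvw
      obtain ⟨hv, hw, -, hd⟩ := h9 v w hvw
      obtain ⟨Φ, a1, a2⟩ := exists_ch2 hv0 h0 hd0
      obtain ⟨Ψ, b1, b2⟩ := exists_ch2 hv hvw hd
      obtain ⟨h, hh, hi⟩ := hT Φ Ψ
      have e1 := hi 0
      have e2 := hi 1
      rw [a1, b1, image_singleton, singleton_eq_singleton_iff] at e1
      rw [a2, b2] at e2
      have e3 : segment ℝ (h v₀) (h w₀) = segment ℝ v w := by
        rw [← e2]
        exact (image_segment ℝ (h.toLinearEquiv : E (d + 1) →ₗ[ℝ] E (d + 1)).toAffineMap v₀ w₀).symm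
      rw [e1] at e3
      have e4 := seg_end hvw.1 e3
      rw [← e1, ← e4]
      exact h.inner_map_map v₀ w₀
  · refine ⟨0, by norm_num, fun v w h => absurd ⟨v, w, h⟩ hex⟩

end Pool.Agent.T9h64.NK
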