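import Pool.Agent.T9h44.NK.SpecC
import Pool.Agent.T9h73.NK.FF

/-!
# (FTO) the regular cross-polytope is flag-transitive
-/

set_option autoImplicit false

open Set
open scoped RealInnerProductSpace

namespace Pool.Agent.T9h64.NK

open Pool.Agent.T9h98.DC Pool.Agent.T9h44.NK

section

variable {d : ℕ} (c : E d) (r : ℝ) (b : OrthonormalBasis (Fin d) ℝ (E d))

/-- the vertices -/
def VO : Set (E d) := {x | ∃ i, x = c + r • b i ∨ x = c - r • b i}

theorem VO_finite : (VO c r b).Finite := by
  apply (Set.finite_range (fun i : Fin d => c + r • b i)).union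
    (Set.finite_range (fun i : Fin d => c - r • b i)) |>.subset
  rintro x ⟨i, h | h⟩
  · exact Or.inl ⟨i, h.symm⟩
  · exact Or.inr ⟨i, h.symm⟩

/-- the vertices with the signs `ε` -/
noncomputable def pO (ε : Fin d → ℝ) (j : Fin d) : E d := c + (r * ε j) • b j

theorem pO_mem {ε : Fin d → ℝ} (hε : ∀ j, ε j = 1 ∨ ε j = -1) (j : Fin d) :
    pO c r b ε j ∈ VO c r b := by
  refine ⟨j, ?_⟩
  rcases hε j with h | h
  · left; simp [pO, h]
  · right; simp [pO, h, sub_eq_add_neg]

theorem span_VO (hr : 0 < r) : vectorSpan ℝ (convexHull ℝ (VO c r b)) = ⊤ := by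
  rw [eq_top_iff, ← b.toBasis.span_eq, Submodule.span_le]
  rintro x ⟨i, rfl⟩
  rw [SetLike.mem_coe, b.coe_toBasis]
  have h1 : c + r • b i ∈ convexHull ℝ (VO c r b) := subset_convexHull ℝ _ ⟨i, Or.inl rfl⟩
  have h2 : c - r • b i ∈ convexHull ℝ (VO c r b) := subset_convexHull ℝ _ ⟨i, Or.inr rfl⟩
  have h3 := vsub_mem_vectorSpan ℝ h1 h2
  have h4 : (c + r • b i) -ᵥ (c - r • b i) = (2 * r) • b i := by
    rw [vsub_eq_sub, two_mul, add_smul]; abel
  rw [h4] at h3
  exact (Submodule.smul_mem_iff _ (by positivity : (2 * r) ≠ 0)).1 h3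

theorem notboth (hr : 0 < r) {F : Set (E d)} (hF : IsFace (convexHull ℝ (VO c r b)) F)
    (hd : dm F < d) (j : Fin d) : ¬ (c + r • b j ∈ F ∧ c - r • b j ∈ F) := by
  rintro ⟨h1, h2⟩
  obtain ⟨l, hl⟩ := hF.2 hF.1
  have h1' := h1
  have h2' := h2
  rw [hl] at h1' h2'
  have hle : ∀ y ∈ convexHull ℝ (VO c r b), l y ≤ l c := by
    intro y hy
    have e1 := h1'.2 y hy
    have e2 := h2'.2 y hy
    rw [map_add] at e1
    rw [map_sub] at e2
    linarith
  have hb : ∀ k, l (b k) = 0 := by
    intro k
    have e1 := hle _ (subset_convexHull ℝ _ (⟨k, Or.inl rfl⟩ : c + r • b k ∈ VO c r b))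
    have e2 := hle _ (subset_convexHull ℝ _ (⟨k, Or.inr rfl⟩ : c - r • b k ∈ VO c r b))
    rw [map_add, map_smul, smul_eq_mul] at e1
    rw [map_sub, map_smul, smul_eq_mul] at e2
    have e3 : r * l (b k) = 0 := by linarith
    rcases mul_eq_zero.1 e3 with h | h
    · exact absurd h hr.ne'
    · exact h
  have hl0 : ∀ x, l x = 0 := by
    intro x
    rw [← b.sum_repr x, map_sum]
    apply Finset.sum_eq_zero
    intro i _
    rw [map_smul, hb i, smul_zero]
  have hFP : F = convexHull ℝ (VO c r b) := by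
    rw [hl]
    ext x
    constructor
    · exact fun h => h.1
    · intro h
      refine ⟨h, fun y _ => ?_⟩
      rw [hl0, hl0]
  have hdm : dm F = d := by
    show Module.finrank ℝ (vectorSpan ℝ F) = d
    rw [hFP, span_VO c r b hr, finrank_top]
    exact finrank_euclideanSpace_fin
  omega

theorem aff_pO (hr : 0 < r) {ε : Fin d → ℝ} (hε : ∀ j, ε j = 1 ∨ ε j = -1) :
    AffineIndependent ℝ (pO c r b ε) := by
  have h1 : LinearIndependent ℝ fun j => (r * ε j) • b j := by
    have h3 : ∀ j, r * ε j ≠ 0 := by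
      intro j
      rcases hε j with h | h <;> rw [h] <;> simp [hr.ne']
    apply linearIndependent_of_ne_zero_of_inner_eq_zero (𝕜 := ℝ)
    · intro j
      exact smul_ne_zero (h3 j) (b.orthonormal.ne_zero j)
    · intro i j hij
      have h4 := (orthonormal_iff_ite.1 b.orthonormal) i j
      rw [if_neg hij] at h4
      show ⟪(r * ε i) • b i, (r * ε j) • b j⟫ = 0
      rw [real_inner_smul_left, real_inner_smul_right, h4, mul_zero, mul_zero]
  have h5 := h1.affineIndependent
  have h6 := (affineIndependent_vadd (k := ℝ) (v := c) (p := fun j => (r * ε j) • b j)).2 h5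
  exact h6

theorem dm_hull {ι : Type} [DecidableEq ι] {p : ι → E d} (hp : AffineIndependent ℝ p)
    (I : Finset ι) (hI : I.Nonempty) : dm (convexHull ℝ (p '' (I : Set ι))) + 1 = I.card := by
  classical
  obtain ⟨n, hn⟩ : ∃ n, I.card = n + 1 := ⟨I.card - 1, by have := hI.card_pos; omega⟩
  have h1 := hp.finrank_vectorSpan_image_finset hn
  have h2 : vectorSpan ℝ (convexHull ℝ (p '' (I : Set ι))) =
      vectorSpan ℝ ((I.image p : Finset (E d)) : Set (E d)) := by
    rw [← direction_affineSpan, affineSpan_convexHull, direction_affineSpan, Finset.coe_image]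
  show Module.finrank ℝ (vectorSpan ℝ (convexHull ℝ (p '' (I : Set ι)))) + 1 = I.card
  rw [h2, h1, hn]

end

theorem flagdata {e : ℕ} (c : E (e + 1)) (r : ℝ) (b : OrthonormalBasis (Fin (e + 1)) ℝ (E (e + 1)))
    (hr : 0 < r) (Φ : Flag (convexHull ℝ (VO c r b))) :
    ∃ ε : Fin (e + 1) → ℝ, (∀ j, ε j = 1 ∨ ε j = -1) ∧ ∃ I : Fin (e + 1) → Finset (Fin (e + 1)),
      Monotone I ∧ (∀ i, (I i).card = i + 1) ∧
      ∀ i, Φ.face i = convexHull ℝ (pO c r b ε '' (I i : Set (Fin (e + 1)))) := by
  classical
  obtain ⟨T, hT⟩ : ∃ T, T = Φ.face (Fin.last e) := ⟨_, rfl⟩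
  have hTf : IsFace (convexHull ℝ (VO c r b)) T := by rw [hT]; exact Φ.isFace _
  have hTd : dm T < e + 1 := by
    have h1 : dm (Φ.face (Fin.last e)) = ((Fin.last e : Fin (e + 1)) : ℕ) := Φ.dim (Fin.last e)
    rw [hT, h1, Fin.val_last]
    omega
  have hsub : ∀ i, Φ.face i ⊆ T := by
    intro i
    rw [hT]
    exact Φ.mono (Fin.le_last i)
  have hnb := notboth c r b hr hTf hTd
  let ε : Fin (e + 1) → ℝ := fun j => if c + r • b j ∈ T then 1 else -1
  have hε : ∀ j, ε j = 1 ∨ ε j = -1 := by
    intro j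
    by_cases h : c + r • b j ∈ T
    · left; simp [ε, h]
    · right; simp [ε, h]
  let I : Fin (e + 1) → Finset (Fin (e + 1)) := fun i =>
    Finset.univ.filter fun j => pO c r b ε j ∈ Φ.face i
  have hface : ∀ i, Φ.face i = convexHull ℝ (pO c r b ε '' (I i : Set (Fin (e + 1)))) := by
    intro i
    rw [Pool.Agent.T9h73.NK.face_hull (VO_finite c r b) rfl (Φ.isFace i)]
    congr 1
    ext x
    constructor
    · rintro ⟨⟨j, h | h⟩, hx⟩
      · have h1 : ε j = 1 := by
          have : c + r • b j ∈ T := by rw [← h]; exact hsub i hx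
          simp [ε, this]
        have h2 : pO c r b ε j = x := by rw [h]; simp [pO, h1]
        refine ⟨j, ?_, h2⟩
        simp only [I, Finset.coe_filter, Finset.mem_univ, true_and, mem_setOf_eq]
        rw [h2]
        exact hx
      · have h1 : ε j = -1 := by
          have h3 : c - r • b j ∈ T := by rw [← h]; exact hsub i hx
          have h4 : c + r • b j ∉ T := fun h5 => hnb j ⟨h5, h3⟩
          simp [ε, h4]
        have h2 : pO c r b ε j = x := by rw [h]; simp [pO, h1, sub_eq_add_neg]
        refine ⟨j, ?_, h2⟩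
        simp only [I, Finset.coe_filter, Finset.mem_univ, true_and, mem_setOf_eq]
        rw [h2]
        exact hx
    · rintro ⟨j, hj, rfl⟩
      simp only [I, Finset.coe_filter, Finset.mem_univ, true_and, mem_setOf_eq] at hj
      exact ⟨pO_mem c r b hε j, hj⟩
  refine ⟨ε, hε, I, ?_, ?_, hface⟩
  · intro i i' hii j hj
    simp only [I, Finset.mem_filter, Finset.mem_univ, true_and] at hj ⊢
    exact Φ.mono hii hj
  · intro i
    have hne : (I i).Nonempty := by
      rw [Finset.nonempty_iff_ne_empty]
      intro h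
      have h1 := hface i
      rw [h] at h1
      have h2 := (Φ.isFace i).1
      rw [h1] at h2
      simp at h2
    have h1 := dm_hull (aff_pO c r b hr hε) (I i) hne
    rw [← hface i] at h1
    have h2 := Φ.dim i
    have h3 : dm (Φ.face i) = (i : ℕ) := h2
    omega

theorem fto : S_PERM → S_FTO := by
  intro hPERM d P hP
  obtain ⟨c, r, b, hr, rfl⟩ := hP
  change FT (convexHull ℝ (VO c r b))
  cases d with
  | zero =>
    intro Φ Ψ
    exact ⟨IsometryEquiv.refl _, image_id _, fun i => i.elim0⟩
  | succ e =>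
    intro Φ Ψ
    obtain ⟨ε, hε, I, hIm, hIc, hIf⟩ := flagdata c r b hr Φ
    obtain ⟨ε', hε', J, hJm, hJc, hJf⟩ := flagdata c r b hr Ψ
    obtain ⟨τ, hτ⟩ := hPERM (e + 1) (e + 1) I J hIm hJm hIc hJc
    let δ : Fin (e + 1) → ℝ := fun j => ε j * ε' (τ j)
    have hδ : ∀ j, δ j = 1 ∨ δ j = -1 := by
      intro j
      rcases hε j with h | h <;> rcases hε' (τ j) with h' | h' <;> simp [δ, h, h']
    have hon : Orthonormal ℝ fun j => δ j • b (τ j) := by
      rw [orthonormal_iff_ite]
      intro i j
      have h1 := (orthonormal_iff_ite.1 b.orthonormal) (τ i) (τ j)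
      rw [real_inner_smul_left, real_inner_smul_right, h1]
      by_cases h : i = j
      · subst h
        rcases hδ i with h | h <;> simp [h]
      · have : τ i ≠ τ j := fun h' => h (τ.injective h')
        simp [h, this]
    have hcard : Fintype.card (Fin (e + 1)) = Module.finrank ℝ (E (e + 1)) := by
      rw [finrank_euclideanSpace_fin, Fintype.card_fin]
    let B := basisOfOrthonormalOfCardEqFinrank hon hcard
    have hB : ⇑B = fun j => δ j • b (τ j) := coe_basisOfOrthonormalOfCardEqFinrank hon hcard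
    let b' := B.toOrthonormalBasis (by rw [hB]; exact hon)
    have hb' : ∀ j, b' j = δ j • b (τ j) := by
      intro j
      have : ⇑b' = ⇑B := B.coe_toOrthonormalBasis _
      rw [this, hB]
    let L : E (e + 1) ≃ₗᵢ[ℝ] E (e + 1) := b.equiv b' (Equiv.refl _)
    have hL : ∀ j, L (b j) = δ j • b (τ j) := by
      intro j
      rw [OrthonormalBasis.equiv_apply_basis]
      exact hb' j
    obtain ⟨A, hA⟩ : ∃ A : E (e + 1) ≃ᵃⁱ[ℝ] E (e + 1), ∀ x, A x = L (x - c) + c :=
      ⟨AffineIsometryEquiv.mk' (fun x => L (x - c) + c) L c (by intro x; simp), fun x => rfl⟩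
    have hull : ∀ s : Set (E (e + 1)), A '' convexHull ℝ s = convexHull ℝ (A '' s) := fun s =>
      (A.toAffineEquiv.toAffineMap).image_convexHull s
    have hAp : ∀ j (t : ℝ), A (c + t • b j) = c + (t * δ j) • b (τ j) := by
      intro j t
      rw [hA, add_sub_cancel_left, map_smul, hL, smul_smul]
      exact add_comm _ _
    have hAV : A '' VO c r b = VO c r b := by
      ext x
      constructor
      · rintro ⟨y, ⟨i, h | h⟩, rfl⟩
        · rw [h, hAp]
          refine ⟨τ i, ?_⟩
          rcases hδ i with h' | h'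
          · left; simp [h']
          · right; simp [h', sub_eq_add_neg]
        · have h1 : c - r • b i = c + (-r) • b i := by rw [neg_smul, sub_eq_add_neg]
          rw [h, h1, hAp]
          refine ⟨τ i, ?_⟩
          rcases hδ i with h' | h'
          · right; simp [h', sub_eq_add_neg]
          · left; simp [h']
      · rintro ⟨k, h | h⟩
        · obtain ⟨i, rfl⟩ := τ.surjective k
          refine ⟨c + (r * δ i) • b i, ⟨i, ?_⟩, ?_⟩
          · rcases hδ i with h' | h'
            · left; simp [h']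
            · right; simp [h', sub_eq_add_neg]
          · rw [hAp, h]
            rcases hδ i with h' | h' <;> simp [h']
        · obtain ⟨i, rfl⟩ := τ.surjective k
          refine ⟨c + (-(r * δ i)) • b i, ⟨i, ?_⟩, ?_⟩
          · rcases hδ i with h' | h'
            · right; simp [h', sub_eq_add_neg]
            · left; simp [h']
          · rw [hAp, h]
            rcases hδ i with h' | h' <;> simp [h', sub_eq_add_neg]
    refine ⟨A.toIsometryEquiv, ?_, ?_⟩
    · show A '' convexHull ℝ (VO c r b) = convexHull ℝ (VO c r b)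
      rw [hull, hAV]
    · intro i
      show A '' Φ.face i = Ψ.face i
      rw [hIf i, hJf i, hull, image_image, ← hτ i, Finset.coe_image, image_image]
      congr 1
      apply image_congr
      intro j _
      show A (pO c r b ε j) = pO c r b ε' (τ j)
      unfold pO
      rw [hAp]
      congr 2
      rcases hε j with h | h <;> simp [δ, h]

end Pool.Agent.T9h64.NK
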