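import Pool.Agent.T9h44.NK.Spec5

/-!
# (ABS) for `q < 1/5`: at most 13 vectors
-/

set_option autoImplicit false

open Set Finset
open scoped RealInnerProductSpace

namespace Pool.Agent.T9h64.NK

open Pool.Agent.T9h98.DC Pool.Agent.T9h44.NK

theorem abs5 (m : ℕ) (q : ℝ) (X : Finset (E m)) (hq : 0 < q) (hq5 : q < 1 / 5) (hX : Cfg q X) :
    X.card ≤ 13 := by
  classical
  obtain ⟨h1, h2, h3⟩ := hX
  rcases X.eq_empty_or_nonempty with hne | ⟨x, hx⟩
  · rw [hne]; simp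
  -- the vectors with product at most `2 q - 1`, the others
  let U := (X.erase x).filter fun y => ⟪x, y⟫ ≤ 2 * q - 1
  let A := (X.erase x).filter fun y => ¬ ⟪x, y⟫ ≤ 2 * q - 1
  have hcard : U.card + A.card + 1 = X.card := by
    have e1 : U.card + A.card = (X.erase x).card := Finset.card_filter_add_card_filter_not _
    rw [e1]
    exact Finset.card_erase_add_one hx
  have hUm : ∀ u ∈ U, u ∈ X ∧ x ≠ u ∧ ⟪x, u⟫ ≤ 2 * q - 1 := by
    intro u hu
    have := Finset.mem_filter.1 hu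
    exact ⟨Finset.mem_of_mem_erase this.1, (Finset.ne_of_mem_erase this.1).symm, this.2⟩
  have hAm : ∀ u ∈ A, ⟪x, u⟫ = q := by
    intro u hu
    have := Finset.mem_filter.1 hu
    rcases h2 x hx u (Finset.mem_of_mem_erase this.1) (Finset.ne_of_mem_erase this.1).symm with h | h
    · exact h
    · exact absurd h this.2
  -- the product of `x` with the sum
  have hsum : ∑ u ∈ U, ⟪x, u⟫ + A.card * q + 1 = 0 := by
    have e1 : ⟪x, ∑ y ∈ X, y⟫ = 0 := by rw [h3, inner_zero_right]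
    rw [inner_sum, ← Finset.add_sum_erase X (fun y => ⟪x, y⟫) hx,
      ← Finset.sum_filter_add_sum_filter_not (X.erase x) (fun y => ⟪x, y⟫ ≤ 2 * q - 1)] at e1
    have e2 : ∑ y ∈ A, ⟪x, y⟫ = A.card * q := by
      rw [Finset.sum_congr rfl hAm, Finset.sum_const, nsmul_eq_mul]
    have e3 : ⟪x, x⟫ = 1 := by rw [real_inner_self_eq_norm_sq, h1 x hx]; norm_num
    have e4 : ∑ y ∈ (X.erase x).filter (fun y => ¬ ⟪x, y⟫ ≤ 2 * q - 1), ⟪x, y⟫ = A.card * q := e2
    have e5 : ∑ y ∈ (X.erase x).filter (fun y => ⟪x, y⟫ ≤ 2 * q - 1), ⟪x, y⟫ =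
      ∑ u ∈ U, ⟪x, u⟫ := rfl
    rw [e4, e5, e3] at e1
    linarith
  obtain ⟨t, ht⟩ : ∃ t, t = 1 + A.card * q := ⟨_, rfl⟩
  have ht1 : ⟪x, ∑ u ∈ U, u⟫ = -t := by
    rw [inner_sum, ht]
    linarith
  have hb1 : (U.card : ℝ) * (1 - 2 * q) ≤ t := by
    have e1 : ∑ u ∈ U, ⟪x, u⟫ ≤ ∑ _u ∈ U, (2 * q - 1) := Finset.sum_le_sum fun u hu => (hUm u hu).2.2
    rw [Finset.sum_const, nsmul_eq_mul] at e1
    rw [ht]
    linarith
  -- the norm of the sum
  have hnorm : ‖∑ u ∈ U, u‖ ^ 2 ≤ U.card + U.card * (U.card - 1) * q := by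
    rw [← real_inner_self_eq_norm_sq, inner_sum]
    have e1 : ∀ u ∈ U, ⟪∑ w ∈ U, w, u⟫ ≤ 1 + (U.card - 1) * q := by
      intro u hu
      rw [sum_inner, ← Finset.add_sum_erase U (fun w => ⟪w, u⟫) hu]
      have e2 : ⟪u, u⟫ = 1 := by rw [real_inner_self_eq_norm_sq, h1 u (hUm u hu).1]; norm_num
      have e3 : ∑ w ∈ U.erase u, ⟪w, u⟫ ≤ ∑ _w ∈ U.erase u, q := by
        apply Finset.sum_le_sum
        intro w hw
        have hw' := Finset.mem_of_mem_erase hw
        rcases h2 w (hUm w hw').1 u (hUm u hu).1 (Finset.ne_of_mem_erase hw) with h | h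
        · exact h.le
        · linarith
      have e4 : ((U.erase u).card : ℝ) = U.card - 1 := by
        rw [Finset.card_erase_of_mem hu, Nat.cast_sub (Finset.card_pos.2 ⟨u, hu⟩)]
        norm_num
      rw [Finset.sum_const, nsmul_eq_mul, e4] at e3
      linarith
    have e5 := Finset.sum_le_sum e1
    rw [Finset.sum_const, nsmul_eq_mul] at e5
    linarith
  have hcs : t ^ 2 ≤ ‖∑ u ∈ U, u‖ ^ 2 := by
    have e1 := abs_real_inner_le_norm x (∑ u ∈ U, u)
    rw [ht1, h1 x hx, one_mul, abs_neg] at e1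
    have e2 : |t| ^ 2 ≤ ‖∑ u ∈ U, u‖ ^ 2 := pow_le_pow_left₀ (abs_nonneg t) e1 2
    rwa [sq_abs] at e2
  have hkey : t ^ 2 ≤ U.card + U.card * (U.card - 1) * q := hcs.trans hnorm
  have hApos : (0 : ℝ) ≤ A.card := Nat.cast_nonneg _
  have hUpos : (0 : ℝ) ≤ U.card := Nat.cast_nonneg _
  generalize hB : U.card = b at *
  generalize hAA : A.card = a at *
  have ht0 : 1 ≤ t := by rw [ht]; nlinarith
  -- `b ≤ 4`
  have hb4 : b ≤ 4 := by
    by_contra hcon
    push Not at hcon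
    have h5 : (5 : ℝ) ≤ b := by exact_mod_cast hcon
    have e1 : ((b : ℝ) * (1 - 2 * q)) ^ 2 ≤ t ^ 2 := by
      apply pow_le_pow_left₀ _ hb1
      have : 0 < 1 - 2 * q := by linarith
      positivity
    have e2 : (b : ℝ) * ((1 - 2 * q) ^ 2 * b) ≤ b * (1 + (b - 1) * q) := by nlinarith
    have e3 : (1 - 2 * q) ^ 2 * b ≤ 1 + (b - 1) * q := le_of_mul_le_mul_left e2 (by linarith)
    have e4 : (b : ℝ) * ((1 - q) * (1 - 4 * q)) ≤ 1 - q := by nlinarith
    have e5 : 5 * ((1 - q) * (1 - 4 * q)) ≤ 1 - q := by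
      have : 0 ≤ (1 - q) * (1 - 4 * q) := mul_nonneg (by linarith) (by linarith)
      nlinarith
    nlinarith
  have ha : a + b ≤ 12 := by
    by_contra hcon
    push Not at hcon
    rw [ht] at hkey hb1
    interval_cases b
    · have : (13 : ℝ) ≤ a := by exact_mod_cast (by omega : 13 ≤ a)
      norm_num at hkey
      nlinarith
    · have : (12 : ℝ) ≤ a := by exact_mod_cast (by omega : 12 ≤ a)
      norm_num at hkey
      have h6 := (abs_le.1 hkey).2
      nlinarith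
    · have : (11 : ℝ) ≤ a := by exact_mod_cast (by omega : 11 ≤ a)
      norm_num at hkey hb1
      nlinarith
    · have : (10 : ℝ) ≤ a := by exact_mod_cast (by omega : 10 ≤ a)
      norm_num at hkey hb1
      nlinarith
    · have : (9 : ℝ) ≤ a := by exact_mod_cast (by omega : 9 ≤ a)
      norm_num at hkey hb1
      nlinarith
  omega

end Pool.Agent.T9h64.NK
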