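import Pool.Agent.T9h48.NK.TrCore

/-!
# Project NK (slope 1), pieces N5 and N1: chains through a vertex and through its neighbour
-/

set_option autoImplicit false

open Set
open scoped RealInnerProductSpace

namespace Pool.Agent.T9h64.NK

open Pool.Agent.T9h98.DC Pool.Agent.T9h44.NK Pool.Agent.T9h48.NK

/-- `H` is transitive on the chains `{v} ⊂ F_1 ⊂ ⋯ ⊂ F_L` -/
def CT {d : ℕ} (L : ℕ) (H : Subgroup (E (d + 1) ≃ₗᵢ[ℝ] E (d + 1))) (P : Set (E (d + 1)))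
    (v : E (d + 1)) : Prop :=
  ∀ Φ Ψ : Ch P (L + 1), Φ.face 0 = {v} → Ψ.face 0 = {v} → ∃ h ∈ H, ∀ i, h '' Φ.face i = Ψ.face i

section

variable {d : ℕ} {P : Set (E (d + 1))} {H : Subgroup (E (d + 1) ≃ₗᵢ[ℝ] E (d + 1))}
  {v n : E (d + 1)} {ι : E d →ₗᵢ[ℝ] E (d + 1)}

theorem mem_chain {j : ℕ} (Θ : Ch P (j + 1)) (h0 : Θ.face 0 = {v}) (i : Fin (j + 1)) :
    v ∈ Θ.face i := by
  apply Θ.mono (Fin.zero_le i)
  rw [h0]
  rfl

theorem fix_of_chain {j : ℕ} (Φ Ψ : Ch P (j + 1)) (h0 : Φ.face 0 = {v}) (h1 : Ψ.face 0 = {v})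
    {h : E (d + 1) ≃ₗᵢ[ℝ] E (d + 1)} (hh : ∀ i, h '' Φ.face i = Ψ.face i) : h v = v := by
  have := hh 0
  rw [h0, h1, image_singleton] at this
  exact singleton_injective this

/-- from a map of chains through `v` to a map of the chains of the figure -/
theorem down (hn0 : n ≠ 0) (hO : Ort n ι) (hst : ∀ h ∈ H, h v = v → h n = n)
    (j : ℕ) (Φ Ψ : Ch P (j + 1)) (Φ' Ψ' : Ch (fig v n ι P) j)
    (h1 : Φ.face 0 = {v}) (h2 : Ψ.face 0 = {v})
    (h3 : ∀ i : Fin j, fig v n ι (Φ.face i.succ) = Φ'.face i)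
    (h4 : ∀ i : Fin j, fig v n ι (Ψ.face i.succ) = Ψ'.face i)
    (h5 : ∃ h ∈ H, ∀ i, h '' Φ.face i = Ψ.face i) :
    ∃ k ∈ figH H v ι, ∀ i, k '' Φ'.face i = Ψ'.face i := by
  obtain ⟨h, hh, h5⟩ := h5
  have hhv := fix_of_chain Φ Ψ h1 h2 h5
  obtain ⟨k, hk, hk'⟩ := core1 hn0 hO hst hh hhv
  exact ⟨k, hk, fun i => by rw [← h3, ← h4, ← hk', h5]⟩

/-- and back -/
theorem up (hVF : S_VF) (hP : IsPolytope P) (hH : Pres H P) (hv : Vx P v) (hsup : Sup P v n)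
    (hn0 : n ≠ 0) (hO : Ort n ι) (hst : ∀ h ∈ H, h v = v → h n = n)
    (j : ℕ) (Φ Ψ : Ch P (j + 1)) (Φ' Ψ' : Ch (fig v n ι P) j)
    (h1 : Φ.face 0 = {v}) (h2 : Ψ.face 0 = {v})
    (h3 : ∀ i : Fin j, fig v n ι (Φ.face i.succ) = Φ'.face i)
    (h4 : ∀ i : Fin j, fig v n ι (Ψ.face i.succ) = Ψ'.face i)
    (h5 : ∃ k ∈ figH H v ι, ∀ i, k '' Φ'.face i = Ψ'.face i) :
    ∃ h ∈ H, ∀ i, h '' Φ.face i = Ψ.face i := by
  obtain ⟨-, -, -, hdet⟩ := hVF d P v n ι hP hv hsup hn0 hO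
  have heq : ∀ F G, IsFace P F → IsFace P G → v ∈ F → v ∈ G → fig v n ι F = fig v n ι G →
      F = G := fun F G h1 h2 h3 h4 h5 =>
    (hdet F G h1 h2 h3 h4 h5.subset).antisymm (hdet G F h2 h1 h4 h3 h5.symm.subset)
  obtain ⟨k, hk, hk'⟩ := h5
  obtain ⟨h, hh, hhv, hk2⟩ := core2 hst hk
  refine ⟨h, hh, fun i => ?_⟩
  refine Fin.cases ?_ (fun i => ?_) i
  · rw [h1, h2, image_singleton, hhv]
  · refine heq _ _ (face_image h (hH h hh) (Φ.isFace _)) (Ψ.isFace _) ?_ (mem_chain Ψ h2 _) ?_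
    · exact ⟨v, mem_chain Φ h1 _, hhv⟩
    · rw [hk2, h3, h4, hk']

theorem ct_of_pt (hVF : S_VF) (hSH : S_SH) (hP : IsPolytope P) (hH : Pres H P) (hv : Vx P v)
    (hsup : Sup P v n) (hn0 : n ≠ 0) (hO : Ort n ι) (hst : ∀ h ∈ H, h v = v → h n = n) {L : ℕ}
    (h : PT L (figH H v ι) (fig v n ι P)) : CT L H P v := by
  intro Φ Ψ h1 h2
  obtain ⟨-, hs⟩ := hSH d P v n ι hP hv hsup hn0 hO L
  obtain ⟨Φ', h3⟩ := hs Φ h1
  obtain ⟨Ψ', h4⟩ := hs Ψ h2
  exact up hVF hP hH hv hsup hn0 hO hst L Φ Ψ Φ' Ψ' h1 h2 h3 h4 (h Φ' Ψ')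

theorem pt_of_ct (hSH : S_SH) (hP : IsPolytope P) (hv : Vx P v)
    (hsup : Sup P v n) (hn0 : n ≠ 0) (hO : Ort n ι) (hst : ∀ h ∈ H, h v = v → h n = n) {L : ℕ}
    (h : CT L H P v) : PT L (figH H v ι) (fig v n ι P) := by
  intro Φ' Ψ'
  obtain ⟨hs, -⟩ := hSH d P v n ι hP hv hsup hn0 hO L
  obtain ⟨Φ, h1, h3⟩ := hs Φ'
  obtain ⟨Ψ, h2, h4⟩ := hs Ψ'
  exact down hn0 hO hst L Φ Ψ Φ' Ψ' h1 h2 h3 h4 (h Φ Ψ h1 h2)

end

section

variable {d : ℕ} {P : Set (E (d + 1))} {H : Subgroup (E (d + 1) ≃ₗᵢ[ℝ] E (d + 1))}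
  {w v : E (d + 1)}

theorem image_seg (g : E (d + 1) ≃ₗᵢ[ℝ] E (d + 1)) (a b : E (d + 1)) :
    g '' segment ℝ a b = segment ℝ (g a) (g b) := by
  have := image_segment ℝ (g.toLinearEquiv.toLinearMap.toAffineMap) a b
  simpa using this

theorem moveC (hF : S_FACES) {l : ℕ} (hP : IsPolytope P) (hH : Pres H P) (hv : Adj P w v)
    (htr : ∀ y, Adj P w y → ∃ h ∈ H, h w = w ∧ h y = v) (Φ : Ch P (l + 1 + 1))
    (hΦ : Φ.face 0 = {w}) :
    ∃ g ∈ H, g w = w ∧ ∃ Φ₁ : Ch P (l + 1 + 1), Φ₁.face 0 = {v} ∧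
      Φ₁.face (Fin.succ 0) = segment ℝ w v ∧
      ∀ i : Fin (l + 1), g '' Φ.face i.succ = Φ₁.face i.succ := by
  obtain ⟨-, -, -, -, -, -, -, h8, h9, h10⟩ := hF (d + 1) P hP.1
  -- the edge
  obtain ⟨y, hy, he⟩ : ∃ y, Adj P w y ∧ Φ.face (Fin.succ 0) = segment ℝ w y := by
    obtain ⟨a, b, hab, e⟩ := h8 _ (Φ.isFace (Fin.succ 0)) (by rw [Φ.dim]; rfl)
    have hw : w ∈ segment ℝ a b := by
      rw [← e]
      exact mem_chain Φ hΦ _
    have hwv : Vx P w := (h9 w v hv).1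
    rcases h10 a b hab w hwv hw with h | h
    · subst h
      exact ⟨b, hab, e⟩
    · subst h
      exact ⟨a, (h9 _ _ hab).2.2.1, by rw [e, segment_symm]⟩
  obtain ⟨g, hg, g1, g2⟩ := htr y hy
  have hgP := hH g hg
  have hseg : g '' Φ.face (Fin.succ 0) = segment ℝ w v := by
    rw [he, image_seg, g1, g2]
  let f : Fin (l + 1 + 1) → Set (E (d + 1)) :=
    Fin.cases {v} (fun i => g '' Φ.face i.succ)
  have f0 : f 0 = {v} := rfl
  have fs : ∀ i : Fin (l + 1), f i.succ = g '' Φ.face i.succ := fun i => rfl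
  refine ⟨g, hg, g1, ⟨f, ?_, ?_, ?_⟩, f0, hseg, fun i => rfl⟩
  · intro i
    refine Fin.cases ?_ (fun i => ?_) i
    · rw [f0]
      exact (h9 w v hv).2.1
    · rw [fs]
      exact face_image g hgP (Φ.isFace _)
  · intro i
    refine Fin.cases ?_ (fun i => ?_) i
    · rw [f0]
      show dm ({v} : Set (E (d + 1))) = 0
      unfold dm
      rw [vectorSpan_singleton, finrank_bot]
    · rw [fs]
      exact (dm_image _ _).trans (Φ.dim _)
  · intro i j hij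
    revert hij
    refine Fin.cases ?_ (fun i => ?_) i
    · intro _
      refine Fin.cases ?_ (fun j => ?_) j
      · exact le_rfl
      · rw [f0, fs]
        show {v} ⊆ g '' Φ.face j.succ
        rw [singleton_subset_iff]
        have h1 : v ∈ g '' Φ.face (Fin.succ 0) := by
          rw [hseg]
          exact right_mem_segment ℝ w v
        have h2 : Φ.face (Fin.succ 0) ⊆ Φ.face j.succ :=
          Φ.mono (Fin.succ_le_succ_iff.2 (Fin.zero_le j))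
        exact image_mono h2 h1
    · refine Fin.cases ?_ (fun j => ?_) j
      · intro h
        exact absurd h (by simp)
      · intro h
        rw [fs, fs]
        exact image_mono (Φ.mono h)

/-- **N5** -/
theorem ct_nb (hF : S_FACES) (hP : IsPolytope P) (hH : Pres H P) (hv : Adj P w v)
    (htr : ∀ y, Adj P w y → ∃ h ∈ H, h w = w ∧ h y = v) {L : ℕ} (hL : 1 ≤ L)
    (h : CT L H P v) : CT L H P w := by
  obtain ⟨l, rfl⟩ : ∃ l, L = l + 1 := ⟨L - 1, by omega⟩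
  intro Φ Ψ hΦ hΨ
  obtain ⟨g, hg, g1, Φ₁, a0, a1, a2⟩ := moveC hF hP hH hv htr Φ hΦ
  obtain ⟨g', hg', g1', Ψ₁, b0, b1, b2⟩ := moveC hF hP hH hv htr Ψ hΨ
  obtain ⟨k, hk, hk'⟩ := h Φ₁ Ψ₁ a0 b0
  obtain ⟨-, -, -, -, -, -, -, h8, h9, h10⟩ := hF (d + 1) P hP.1
  have kv : k v = v := fix_of_chain Φ₁ Ψ₁ a0 b0 hk'
  have kw : k w = w := by
    have h1 : k '' segment ℝ w v = segment ℝ w v := by
      have h0 := hk' (Fin.succ 0)
      rw [a1, b1] at h0
      exact h0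
    have h2 : k w ∈ segment ℝ w v := by
      rw [← h1]
      exact ⟨w, left_mem_segment ℝ w v, rfl⟩
    have h3 : Vx P (k w) := by
      have := face_image k (hH k hk) (h9 w v hv).1
      rw [image_singleton] at this
      exact this
    rcases h10 w v hv (k w) h3 h2 with h | h
    · exact h
    · exact absurd (k.injective (h.trans kv.symm)) hv.1
  refine ⟨g'⁻¹ * k * g, H.mul_mem (H.mul_mem (H.inv_mem hg') hk) hg, fun i => ?_⟩
  have gi : g'.symm w = w := by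
    conv_lhs => rw [← g1']
    exact g'.symm_apply_apply w
  refine Fin.cases ?_ (fun i => ?_) i
  · rw [hΦ, hΨ, image_singleton]
    congr 1
    show g'.symm (k (g w)) = w
    rw [g1, kw, gi]
  · have e1 : (⇑(g'⁻¹ * k * g) : E (d + 1) → E (d + 1)) = g'.symm ∘ k ∘ g := rfl
    rw [e1, image_comp, image_comp, a2, hk', ← b2, ← image_comp]
    have : (g'.symm : E (d + 1) → E (d + 1)) ∘ g' = id := by
      funext x
      exact g'.symm_apply_apply x
    rw [this, image_id]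

/-- **N1** number of orbits at two vertices which are not equivalent -/
theorem few_add (hSH : S_SH) {n₁ n₂ : E (d + 1)} {ι₁ ι₂ : E d →ₗᵢ[ℝ] E (d + 1)}
    (hP : IsPolytope P)
    (hw : Vx P w) (hs1 : Sup P w n₁) (hn1 : n₁ ≠ 0) (hO1 : Ort n₁ ι₁)
    (hf1 : ∀ h ∈ H, h w = w → h n₁ = n₁)
    (hv : Vx P v) (hs2 : Sup P v n₂) (hn2 : n₂ ≠ 0) (hO2 : Ort n₂ ι₂)
    (hf2 : ∀ h ∈ H, h v = v → h n₂ = n₂)
    (hne : ∀ h ∈ H, h w ≠ v) (a b : ℕ) (hFew : Few (a + b + 1) H P)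
    (hnot : ¬ Few a (figH H w ι₁) (fig w n₁ ι₁ P)) : Few b (figH H v ι₂) (fig v n₂ ι₂ P) := by
  unfold Few at hnot
  push Not at hnot
  obtain ⟨Ψ', hΨ'⟩ := hnot
  intro Φ'
  choose Φ h1 h2 using fun i => (hSH d P v n₂ ι₂ hP hv hs2 hn2 hO2 d).1 (Φ' i)
  choose Ψ h3 h4 using fun i => (hSH d P w n₁ ι₁ hP hw hs1 hn1 hO1 d).1 (Ψ' i)
  have e : a + b + 1 + 1 = (a + 1) + (b + 1) := by ring
  obtain ⟨i, j, hij, h, hh, h5⟩ := hFew (fun i => Fin.append Ψ Φ (Fin.cast e i))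
  have hij' : Fin.cast e i ≠ Fin.cast e j := fun hc => hij (Fin.cast_injective e hc)
  generalize Fin.cast e i = i' at *
  generalize Fin.cast e j = j' at *
  induction i' using Fin.addCases with
  | left i' =>
    induction j' using Fin.addCases with
    | left j' =>
      exfalso
      have hij2 : i' ≠ j' := fun hc => hij' (by rw [hc])
      simp only [Fin.append_left] at h5
      obtain ⟨k, hk, hk'⟩ := down hn1 hO1 hf1 d (Ψ i') (Ψ j') (Ψ' i') (Ψ' j') (h3 _) (h3 _) (h4 _)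
        (h4 _) ⟨h, hh, h5⟩
      obtain ⟨l, hl⟩ := hΨ' i' j' hij2 k hk
      exact hl (hk' l)
    | right j' =>
      exfalso
      simp only [Fin.append_left, Fin.append_right] at h5
      have := h5 0
      rw [h1, h3, image_singleton] at this
      exact hne h hh (singleton_injective this)
  | right i' =>
    induction j' using Fin.addCases with
    | left j' =>
      exfalso
      simp only [Fin.append_left, Fin.append_right] at h5
      have := h5 0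
      rw [h1, h3, image_singleton] at this
      have e2 : h v = w := singleton_injective this
      refine hne h⁻¹ (H.inv_mem hh) ?_
      rw [← e2]
      exact h.symm_apply_apply v
    | right j' =>
      have hij2 : i' ≠ j' := fun hc => hij' (by rw [hc])
      simp only [Fin.append_right] at h5
      exact ⟨i', j', hij2, down hn2 hO2 hf2 d (Φ i') (Φ j') (Φ' i') (Φ' j') (h1 _) (h1 _) (h2 _)
        (h2 _) ⟨h, hh, h5⟩⟩

end

end Pool.Agent.T9h64.NK
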